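import Pool.Agent.Run7.h469.TR.P4aec10

/-!
# Translates in `Lie (E × G_m)^2` by logarithms of the pairs of Euclid's algorithm

Let `E` be the elliptic curve `y² = 4 x³ - g₂ x - g₃` with rational `g₂`, `g₃`, and `G = (E × G_m)^n`. Let `(z, s)` be ANY point of
`Lie G_ℂ = ℂⁿ × ℂⁿ`, `w_1, …, w_q` complex numbers (for instance the periods of `G`). We call a tuple `(t_1, …, t_n)` of integers
good if for all translates `r = (u, y)` of `(z, s)` by logarithms of the points `((t_i, ± β_i), t_i)_i` of `G`, `℘(u_i - z_i) = t_i`,
`exp(y_i - s_i) = t_i`, every polynomial relation of degree at most `δ`, over a number field of degree at most `d` and of any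
height, between `w_1, …, w_q`, the components `u_i`, `y_i` of `r`, the numbers `ζ(u_i)` and the components of `exp_G(r)` is an
identity in the numbers `u_i`, `ζ(u_i)`, `y_i`. In bounded degree the transcendence degree of the components of `r` and
`exp_G(r)` over the field of periods is thus at least `dim G`.

The subtractive Euclidean algorithm replaces a pair `(a, b)` of positive integers by `(a, b - a)` or `(a - b, b)`. We take `n = 2`
and prove that for all pairs `(a, b)` in `[1, X]^2` with at most `C X^2 H^(-η)` exceptions, for ALL pairs `(u, v)` with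
`max(u, v) ≥ H` of the algorithm of `(a, b)` ALL pairs `t = M (u, v) + b` of nonzero integers are good, where `M` is an integral
`2 × 2` matrix with `det M ≠ 0`, `b` an integral vector and the entries of `M` and `b` are at most `max(u, v)^η`. The numbers
`η > 0` and `C` depend only on the curve, `q`, `δ` and `d`, not on `(z, s)` and `w`; the bound for the number of the exceptions
is small for large `H`, uniformly in `X`.

The starting theorem `SemiabelianTranslates` of this problem bounds the number of pairs up to `U` which are not good by
`C U^(2 - c)`. For the algorithm a pair `(u, v)` counts with the number of the pairs in `[1, X]^2` above it in the tree, at most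
`6 X^2 / (u v)`; a pair with a small coordinate `v` counts too much, and so the chains `(u, v), (u - v, v), …` with a small `v`
are treated as a whole.
-/

set_option autoImplicit false

namespace Pool.Agent.Results.MP_4aec10_nt.EuclideanAlgorithm

open Finset MeasureTheory
open Run7.h469.Ab (euclidExceptions)
open Run7.h469.Vp (Combinations)
open Run7.h469.TR.P4aec10 (Good few)

/-- **Translates by logarithms of the pairs of Euclid's algorithm.** Let `Λ` be a lattice with rational invariants. For all
`q`, `δ`, `d` there are `η > 0` and `C` such that for all `w` in `ℂ^q`, all points `(z, s)` of `ℂ² × ℂ²` and all `X` and `H ≥ 1`: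
for all but `C X^2 H^(-η)` of the pairs `(a, b)` in `[1, X]^2`, for all pairs `(u, v)` with `max(u, v) ≥ H` of the subtractive
Euclidean algorithm of `(a, b)`, all pairs `M (u, v) + b` of nonzero integers, `det M ≠ 0`, with entries of `M` and `b` at most
`max(u, v)^η` are good. -/
theorem result (Λ : PeriodPair) (a b : ℚ) (ha : Λ.g₂ = a) (hb : Λ.g₃ = b) (q δ d : ℕ) :
    ∃ η C : ℝ, 0 < η ∧ ∀ (w : Fin q → ℂ) (z s : Fin 2 → ℂ) (X H : ℕ), 1 ≤ H →
      ((euclidExceptions (Combinations η (Good Λ δ d w z s)) X H).card : ℝ) ≤ C * (X : ℝ) ^ 2 * (H : ℝ) ^ (-η) := by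
  obtain ⟨c, hc, hc1, C, hC, h⟩ := few Λ a b ha hb 2 q δ d
  obtain ⟨η, C', hη, hE⟩ := Run7.h469.Vp.euclid_saving hc (by linarith) hC
  refine ⟨η, C', hη, fun w z s => hE _ ?_⟩
  simpa only [Nat.cast_ofNat] using h w z s

end Pool.Agent.Results.MP_4aec10_nt.EuclideanAlgorithm
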