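import Pool.Agent.Run7.h469.TR.P4aec10

/-!
# Translates in `Lie (E × G_m)^2` by logarithms of the ends of the Farey intervals around a real number

Let `E` be the elliptic curve `y² = 4 x³ - g₂ x - g₃` with rational `g₂`, `g₃`, and `G = (E × G_m)^n`. Let `(z, s)` be ANY point of
`Lie G_ℂ = ℂⁿ × ℂⁿ`, `w_1, …, w_q` complex numbers (for instance the periods of `G`). We call a tuple `(t_1, …, t_n)` of integers
good if for all translates `r = (u, y)` of `(z, s)` by logarithms of the points `((t_i, ± β_i), t_i)_i` of `G`, `℘(u_i - z_i) = t_i`,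
`exp(y_i - s_i) = t_i`, every polynomial relation of degree at most `δ`, over a number field of degree at most `d` and of any
height, between `w_1, …, w_q`, the components `u_i`, `y_i` of `r`, the numbers `ζ(u_i)` and the components of `exp_G(r)` is an
identity in the numbers `u_i`, `ζ(u_i)`, `y_i`. In bounded degree the transcendence degree of the components of `r` and
`exp_G(r)` over the field of periods is thus at least `dim G`.

We take `n = 2` and prove that for all real `α > 0` outside a set of Hausdorff dimension at most `1 - η`, and for almost all `α`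
with respect to every measure of dimension larger than `1 - η`, ALL but finitely many Farey intervals `[q / s, p / r]`,
`p s - q r = 1`, around `α` have the following property: for `(u, v)` one of the four pairs `(p, q)`, `(r, s)`, `(p, r)`, `(q, s)`
ALL pairs `t = M (u, v) + b` of nonzero integers are good, where `M` is an integral `2 × 2` matrix with `det M ≠ 0`, `b` an
integral vector and the entries of `M` and `b` are at most `max(u, v)^η`. Here `η > 0` depends only on the curve, `q`, `δ` and
`d`. For almost all real `α` this is true for ALL degrees `δ`, `d` at the same time. The Farey intervals around `α` are those on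
the path to `α` in the Stern-Brocot tree.

The starting theorem `SemiabelianTranslates` of this problem bounds the number of pairs up to `U` which are not good by
`C U^(2 - c)`. The starting theorem `BestApproximations` of this problem is about integer vectors for which a linear form is
near an integer; a Farey interval around `α` can be much longer than `1 / r^2` and `r / s` is not near a number determined by
`α`. The chains of intervals with a common end are treated as a whole.
-/

set_option autoImplicit false

namespace Pool.Agent.Results.MP_4aec10_nt.FareyIntervals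

open Finset MeasureTheory
open Run7.h469.Ab (badIntervals)
open Run7.h469.Vp (Combinations)
open Run7.h469.TR.P4aec10 (Good few)

/-- **Translates by logarithms of the ends of Farey intervals.** Let `Λ` be a lattice with rational invariants and `q` a natural
number. (1) For all `δ`, `d` there is `η > 0` such that for all `w` in `ℂ^q` and all points `(z, s)` of `ℂ² × ℂ²`: for all `α > 0`
outside a set of Hausdorff dimension at most `1 - η`, and for almost all `α > 0` for all measures of a dimension `m > 1 - η`,
there are only finitely many `q / s ≤ α ≤ p / r`, `p s - q r = 1`, such that for one of the pairs `(u, v) = (p, q)`, `(r, s)`,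
`(p, r)`, `(q, s)` some pair `M (u, v) + b` of nonzero integers, `det M ≠ 0`, with entries of `M` and `b` at most `max(u, v)^η`,
is not good. (2) For all `w`, `(z, s)`, for almost all `α > 0`, for ALL `δ`, `d` there is `η > 0` such that this is true. -/
theorem result (Λ : PeriodPair) (a b : ℚ) (ha : Λ.g₂ = a) (hb : Λ.g₃ = b) (q : ℕ) :
    (∀ δ d : ℕ, ∃ η : ℝ, 0 < η ∧ ∀ (w : Fin q → ℂ) (z s : Fin 2 → ℂ),
      (∃ E : Set ℝ, dimH E ≤ ENNReal.ofReal (1 - η) ∧
        ∀ α : ℝ, 0 < α → α ∉ E → (badIntervals (Combinations η (Good Λ δ d w z s)) α).Finite) ∧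
      ∀ (μ : Measure ℝ) (C₁ m : ℝ), 1 - η < m →
        (∀ (x ρ : ℝ), 0 < ρ → μ (Metric.closedBall x ρ) ≤ ENNReal.ofReal (C₁ * ρ ^ m)) →
        ∀ᵐ α ∂μ, 0 < α → (badIntervals (Combinations η (Good Λ δ d w z s)) α).Finite) ∧
    ∀ (w : Fin q → ℂ) (z s : Fin 2 → ℂ), ∀ᵐ α : ℝ, ∀ δ d : ℕ, ∃ η : ℝ, 0 < η ∧
      (0 < α → (badIntervals (Combinations η (Good Λ δ d w z s)) α).Finite) := by
  have key : ∀ δ d : ℕ, ∃ η : ℝ, 0 < η ∧ ∀ (w : Fin q → ℂ) (z s : Fin 2 → ℂ),
      (∃ E : Set ℝ, dimH E ≤ ENNReal.ofReal (1 - η) ∧
        ∀ α : ℝ, 0 < α → α ∉ E → (badIntervals (Combinations η (Good Λ δ d w z s)) α).Finite) ∧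
      ∀ (μ : Measure ℝ) (C₁ m : ℝ), 1 - η < m →
        (∀ (x ρ : ℝ), 0 < ρ → μ (Metric.closedBall x ρ) ≤ ENNReal.ofReal (C₁ * ρ ^ m)) →
        ∀ᵐ α ∂μ, 0 < α → (badIntervals (Combinations η (Good Λ δ d w z s)) α).Finite := by
    intro δ d
    obtain ⟨c, hc, hc1, C, hC, h⟩ := few Λ a b ha hb 2 q δ d
    obtain ⟨η, hη, hE⟩ := Run7.h469.Vp.farey_saving hc (by linarith) hC
    refine ⟨η, hη, fun w z s => hE _ ?_⟩
    simpa only [Nat.cast_ofNat] using h w z s
  refine ⟨key, fun w z s => ?_⟩
  rw [ae_all_iff]
  intro δ
  rw [ae_all_iff]
  intro d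
  obtain ⟨η, hη, h⟩ := key δ d
  filter_upwards [Run7.h469.Vp.ae_of (by linarith) (h w z s).2] with α hα
  exact ⟨η, hη, hα⟩

end Pool.Agent.Results.MP_4aec10_nt.FareyIntervals
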