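import Pool.Agent.Run7.h469.TR.P4aec10
import Pool.Agent.Run7.h469.Vm

/-!
# Translates in `Lie (E × G_m)^n` by logarithms of products of linear forms in almost all integer vectors, and in expansions

Let `E` be the elliptic curve `y² = 4 x³ - g₂ x - g₃` with rational `g₂`, `g₃`, and `G = (E × G_m)^n`. Let `(z, s)` be ANY point of
`Lie G_ℂ = ℂⁿ × ℂⁿ`, `w_1, …, w_q` complex numbers (for instance the periods of `G`). We call a tuple `(t_1, …, t_n)` of integers
good if for all translates `r = (u, y)` of `(z, s)` by logarithms of the points `((t_i, ± β_i), t_i)_i` of `G`, `℘(u_i - z_i) = t_i`,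
`exp(y_i - s_i) = t_i`, every polynomial relation of degree at most `δ`, over a number field of degree at most `d` and of any
height, between `w_1, …, w_q`, the components `u_i`, `y_i` of `r`, the numbers `ζ(u_i)` and the components of `exp_G(r)` is an
identity in the numbers `u_i`, `ζ(u_i)`, `y_i`. In bounded degree the transcendence degree of the components of `r` and
`exp_G(r)` over the field of periods is thus at least `dim G`.

Let `n, h ≥ 1` (for `h = 1` there are no products, only linear forms). We prove that for all integer vectors `x` in `[-X, X]^D`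
with at most `C' Q^(n h (D + 2)) X^(D - c)` exceptions, `C'` depending on `D`, ALL `n`-tuples `t` of products of `h` linear forms,
`t_i = ∏_(j ≤ h) y_(i,j)` with `y = M x + b`, `M` an integral matrix of rank `n h`, `b` an integral vector, the entries of `M`
and `b` at most `Q`, all `y_(i,j) ≠ 0`, are good. Here `Q` can be a small power of `X`. We prove a similar result for the integer
vectors near `N_i α`, `N_i` a lacunary sequence (for instance the truncations of the expansions in base `g`, `N_i = g^i`), for all
real vectors `α` outside a set of dimension less than `D`, and `M`, `b` with entries up to a power of `N_i`.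

The starting theorem `SemiabelianTranslates` of this problem bounds the number of tuples up to `U` which are not good by
`C U^(n - c)`. The products of `h` integers form a set of density zero, and so the result for `h ≥ 2` does not follow from this
number alone: the divisor bound shows that few vectors `y` have a bad tuple of products, and for each of the possible `M`, `b`
the map `x ↦ M x + b` has small fibres.
-/

set_option autoImplicit false

namespace Pool.Agent.Results.MP_4aec10_nt.ProductsOfLinearForms

open Finset MeasureTheory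
open Run7.h469.Vk (Hits Lacunary Generic Avoids)
open Run7.h469.Vm (ProductIn)
open Run7.h469.TR.P4aec10 (Good few)

/-- The `n`-tuples of nonzero integers which are not good. -/
def Bad (Λ : PeriodPair) (δ d : ℕ) {n q : ℕ} (w : Fin q → ℂ) (z s : Fin n → ℂ) : Set (Fin n → ℤ) :=
  {t | (∀ i, t i ≠ 0) ∧ ¬ Good Λ δ d w z s t}

/-- **Translates by logarithms of products of linear forms.** Let `Λ` be a lattice with rational invariants and `n ≥ 1`. For
all `q`, `δ`, `d` there is `c > 0` and for all `h ≥ 1` there is `C` such that for all `w` in `ℂ^q` and all points `(z, s)` of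
`ℂⁿ × ℂⁿ`: (1) for all `D` and `X, Q ≥ 1`, for all but
`C ((D + 1)^(n h) 3^((n h + 1) (D + 1))) Q^(n h (D + 2)) X^(D - c)` of the integer vectors `x` in `[-X, X]^D` no tuple of the
products `∏_(j ≤ h) y_(i,j)` of nonzero coordinates of a vector `y = M x + b`, `M` integral of rank `n h`, with entries of `M` and
`b` at most `Q`, is bad; (2) for lacunary `N_i` and `η ≥ 0`, outside a set of `α` in `ℝ^D` of dimension at most
`D - c + n h (D + 2) η`, for all `A`, for all large `i` the same is true for the integer vectors `x` with `|x - N_i α| ≤ A` and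
`M`, `b` with entries at most `A N_i^η`; (3) in particular it is true for almost all `α`, if `n h (D + 2) η < c`. -/
theorem result (Λ : PeriodPair) (a b : ℚ) (ha : Λ.g₂ = a) (hb : Λ.g₃ = b) (n q δ d : ℕ) (hn : 1 ≤ n) :
    ∃ c : ℝ, 0 < c ∧ ∀ h : ℕ, 1 ≤ h → ∃ C : ℝ, ∀ (w : Fin q → ℂ) (z s : Fin n → ℂ),
      (∀ D X Q : ℕ, 1 ≤ X → 1 ≤ Q →
        (({x : Fin D → ℤ | (∀ j, |x j| ≤ X) ∧ x ∈ Hits (ProductIn h (Bad Λ δ d w z s)) D Q}.ncard : ℕ) : ℝ) ≤
          C * (((D : ℝ) + 1) ^ (n * h) * 3 ^ ((n * h + 1) * (D + 1))) * (Q : ℝ) ^ (n * h * (D + 2)) *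
            (X : ℝ) ^ ((D : ℝ) - c)) ∧
      (∀ D : ℕ, 1 ≤ D → ∀ N : ℕ → ℝ, Lacunary N → ∀ η : ℝ, 0 ≤ η →
        Generic ((D : ℝ) - c + n * h * (D + 2) * η)
          (fun α : Fin D → ℝ => Avoids (ProductIn h (Bad Λ δ d w z s)) N η α)) ∧
      ∀ D : ℕ, 1 ≤ D → ∀ N : ℕ → ℝ, Lacunary N → ∀ η : ℝ, 0 ≤ η → n * h * (D + 2) * η < c →
        ∀ᵐ α : Fin D → ℝ, Avoids (ProductIn h (Bad Λ δ d w z s)) N η α := by
  obtain ⟨c, hc, hc1, C, hC, hf⟩ := few Λ a b ha hb n q δ d
  refine ⟨c / 2, by linarith, fun h hh => ?_⟩
  have hh1 : (1 : ℝ) ≤ h := by exact_mod_cast hh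
  obtain ⟨C', -, key⟩ := Run7.h469.Vm.products_of_forms (k := n) (b := h) hn hh hC (c := c) (c' := c / 2)
    (by linarith) (by linarith) (by nlinarith)
  exact ⟨C', fun w z s => key _ (hf w z s)⟩

end Pool.Agent.Results.MP_4aec10_nt.ProductsOfLinearForms
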