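import Mathlib
import Pool.Agent.Run7.h643.MW.RunsM
import Pool.Agent.Run7.h643.MT.Win

/-!
# Translates of every point of the Lie algebra of products of different elliptic curves and tori: windows chosen one after
the other, and consecutive primes in several intervals

Let `Λ_j`, `j < t`, be lattices with rational invariants, `E_j` the elliptic curves `y² = 4 x³ - g₂ x - g₃`; they may be
equal, isogenous or different. Let `G` be the product of the groups `(E_j × G_m)^(r_j)`, and let `(z, s)` be any point of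
`Lie G_ℂ`. We consider the logarithms `(u, l)` in `(z, s) + log_G(P)` for algebraic points `P` of `G` whose components in
`E_j × G_m` are of the form `((x, y), x)`.

(1) The numbers `x = ξ_j + n` are chosen in `t` steps. In step `j` the lattice `Λ_j` is used; we are given an algebraic
number `ξ_j` of degree at most `m` and of height at most `|ξ_j|^A`, and a bound `H_j` with
`|ξ_j| ≥ (H_j + 2)^((δ + 2)^C)`. Both may depend on all choices made before, so the windows `ξ_j + 1, …, ξ_j + H_j` may be
in any position to each other. We choose `r_j` numbers in this window. At most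
`q + 4 + r_j + 6 ∑_i r_i + 3 ∑_(i<j) r_i + ρ` numbers `n` have to be avoided in step `j`, which depend only on the earlier
choices, on `(z, s)` and on `w`; `ρ` is the transcendence degree of the field generated by the periods and quasi-periods
of all the lattices and `2πi`. Then every polynomial relation of degree at most `δ` over number fields of degree at most
`δ`, of any height, between arbitrary constants `w_1, …, w_q`, the periods of `G`, the components `u_(j,i)`, `l_(j,i)` of
the point of the Lie algebra, the numbers `ζ_j(u_(j,i))` and the components `℘_j(u_(j,i))`, `℘_j'(u_(j,i))`,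
`exp(l_(j,i))` of its image in `G` is an identity in the numbers `u_(j,i)`, `ζ_j(u_(j,i))`, `l_(j,i)`. So the inequality of
the conjecture for `(u, l)` holds in degree `δ`.

(2) There are a number `L` and an infinite set `M` of natural numbers such that for all `N_1, …, N_t` in `M`, every point
`(z, s)` of the Lie algebra of `∏_j (E_j × G_m)^r` and arbitrary constants `w` there are in each of the intervals
`(N_j, N_j + L]` `r` consecutive prime numbers such that the same is true for the translates of `(z, s)` by all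
logarithms of the points over these `t r` primes, for all `δ` up to a power of `log min N_j`. The numbers `L` and the
set `M` do not depend on `(z, s)` and `w`.

For `t = 1` (1) is the starting result `GrowingDegreeTranslates` of this problem, whose proof is followed (the numbers
`ζ(z_i)`, `℘(z_i)`, `℘'(z_i)` and `exp(s_i)` are moved to the constants by the addition theorem); the passage from one
window to the next, in which the earlier numbers become constants, is `Pool.Agent.Run7.h643.MX.ellMix`; (2) uses the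
theorem of Maynard and Tao (starting files, `Pool.Agent.H362R2.CM.quarter`).
-/

set_option autoImplicit false

open scoped PeriodPair

namespace Pool.Agent.Results.MP_4aec10_nt.SuccessiveTranslates

/-- The Weierstrass zeta function `ζ(z) = ∑ (1/(z-l) + 1/l + z/l²)`, the sum over the lattice (the summand of `l = 0` is
`1/z`, since `1/0 = 0` in Lean). -/
noncomputable def zeta (Λ : PeriodPair) (z : ℂ) : ℂ := ∑' l : Λ.lattice, (1 / (z - l) + 1 / l + z / l ^ 2)

/-- The periods `ω₁`, `ω₂` and the half quasi-periods `ζ(ω₁/2)`, `ζ(ω₂/2)` of all the lattices, and `2πi`. -/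
noncomputable def periods {t : ℕ} (Λ : Fin t → PeriodPair) (x : Fin t × Fin 5) : ℂ :=
  (![(Λ x.1).ω₁, (Λ x.1).ω₂, zeta (Λ x.1) ((Λ x.1).ω₁ / 2), zeta (Λ x.1) ((Λ x.1).ω₂ / 2),
    2 * Real.pi * Complex.I] : Fin 5 → ℂ) x.2

/-- The components `u_(j,i)`, `l_(j,i)` of a point of the Lie algebra of the product of the `(E_j × G_m)^(r_j)`, and the
numbers `ζ_j(u_(j,i))`. -/
noncomputable def components {t : ℕ} (Λ : Fin t → PeriodPair) {r : Fin t → ℕ} (u l : ∀ j, Fin (r j) → ℂ)
    (x : (Σ j, Fin (r j)) × Fin 3) : ℂ :=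
  (![u x.1.1 x.1.2, zeta (Λ x.1.1) (u x.1.1 x.1.2), l x.1.1 x.1.2] : Fin 3 → ℂ) x.2

/-- The components of its image in the product of the `(E_j × G_m)^(r_j)`. -/
noncomputable def image {t : ℕ} (Λ : Fin t → PeriodPair) {r : Fin t → ℕ} (u l : ∀ j, Fin (r j) → ℂ)
    (x : (Σ j, Fin (r j)) × Fin 3) : ℂ :=
  (![℘[Λ x.1.1] (u x.1.1 x.1.2), ℘'[Λ x.1.1] (u x.1.1 x.1.2), Complex.exp (l x.1.1 x.1.2)] : Fin 3 → ℂ) x.2

/-- Every polynomial relation of degree `≤ δ` over a number field of degree `≤ δ` between the constants `w`, the periods,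
the `components` and the `image` of `(u, l)` is an identity in the components. -/
def FreeOverImage {t : ℕ} (Λ : Fin t → PeriodPair) {r : Fin t → ℕ} (δ : ℕ) {q : ℕ} (w : Fin q → ℂ)
    (u l : ∀ j, Fin (r j) → ℂ) : Prop :=
  ∀ K : IntermediateField ℚ ℂ, FiniteDimensional ℚ K → Module.finrank ℚ K ≤ δ →
  ∀ P : MvPolynomial ((Fin q ⊕ Fin t × Fin 5) ⊕ (((Σ j, Fin (r j)) × Fin 3) ⊕ ((Σ j, Fin (r j)) × Fin 3))) K,
    P.totalDegree ≤ δ →
    MvPolynomial.aeval (Sum.elim (Sum.elim w (periods Λ)) (Sum.elim (components Λ u l) (image Λ u l))) P = 0 →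
    ∀ y : (Σ j, Fin (r j)) × Fin 3 → ℂ,
      MvPolynomial.aeval (Sum.elim (Sum.elim w (periods Λ)) (Sum.elim y (image Λ u l))) P = 0

/-- The point `(u, l)` is the sum of `(z, s)` and a logarithm of the point with the components `((x_(j,i), ±y_(j,i)),
x_(j,i))` in `E_j × G_m`; no `u_(j,i)` is in the lattice `Λ_j`. -/
def IsTranslate {t : ℕ} (Λ : Fin t → PeriodPair) {r : Fin t → ℕ} (z s x u l : ∀ j, Fin (r j) → ℂ) : Prop :=
  ∀ j i, u j i ∉ (Λ j).lattice ∧ u j i - z j i ∉ (Λ j).lattice ∧ ℘[Λ j] (u j i - z j i) = x j i ∧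
    Complex.exp (l j i - s j i) = x j i

/-- The choices: `r i` integers in the window number `i`. -/
abbrev Choices {t : ℕ} (r : Fin t → ℕ) : Type := ∀ i : Fin t, Fin (r i) → ℕ

theorem free_of_isEmpty {t : ℕ} (Λ : Fin t → PeriodPair) {r : Fin t → ℕ} (hE : IsEmpty (Σ j, Fin (r j))) (δ : ℕ) {q : ℕ}
    (w : Fin q → ℂ) (u l : ∀ j, Fin (r j) → ℂ) : FreeOverImage Λ δ w u l := by
  intro K _ _ P _ hP0 y
  have hy : y = components Λ u l := Subsingleton.elim _ _
  rw [hy]
  exact hP0

/-- Let `Λ_j`, `j < t`, be lattices with rational invariants `g₂`, `g₃`.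

(1) For all `r_j`, `q`, `m`, `A` there is `C` such that for all `δ`, all `w_1, …, w_q ∈ ℂ`, all points `(z, s)` and all
functions `ξ_j`, `H_j` of the choices `n_i`, `i < j`, there are sets `T_j`, functions of the same choices, of at most
`q + 4 + r_j + 6 ∑_i r_i + 3 ∑_(i<j) r_i + trdeg ℚ(periods)` integers with this property: let `n` be choices such that for
all `j` the number `ξ_j` is a root of a nonzero integral polynomial of degree at most `m` with coefficients at most
`|ξ_j|^A`, `|ξ_j| ≥ (H_j + 2)^((δ + 2)^C)`, and the `n_(j,i)` are distinct integers in `[1, H_j]` outside `T_j`; then all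
translates of `(z, s)` by logarithms of the points over the numbers `ξ_j + n_(j,i)` are free over their image, `w` and the
periods up to degree `δ`.

(2) For all `r`, `q` there are `L`, `C` and an infinite set `M` of natural numbers such that for all `N_1, …, N_t` in `M`,
all `w_1, …, w_q ∈ ℂ` and all points `(z, s)` there are for all `j` `r` consecutive primes `p_(j,1) < … < p_(j,r)` in
`(N_j, N_j + L]`, such that for all `δ` with `(δ + 2)^C ≤ log N_j` for all `j` all translates of `(z, s)` by logarithms of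
the points over these primes are free over their image, `w` and the periods up to degree `δ`. -/
theorem result {t : ℕ} (Λ : Fin t → PeriodPair) (a b : Fin t → ℚ) (ha : ∀ j, (Λ j).g₂ = a j)
    (hb : ∀ j, (Λ j).g₃ = b j) :
    (∀ (r : Fin t → ℕ) (q m A : ℕ), ∃ C : ℕ, ∀ (δ : ℕ) (w : Fin q → ℂ) (z s : ∀ j, Fin (r j) → ℂ)
        (H : Fin t → Choices r → ℕ) (ξ : Fin t → Choices r → ℂ),
      (∀ j n n', (∀ i, i < j → n i = n' i) → H j n = H j n' ∧ ξ j n = ξ j n') →
      ∃ T : Fin t → Choices r → Finset ℕ,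
        (∀ j n, ((T j n).card : Cardinal) ≤
          ((q + 4 + r j + (∑ i, r i) * 6 + ∑ i ∈ Finset.Iio j, r i * 3 : ℕ) : Cardinal) +
          Algebra.trdeg ℚ (IntermediateField.adjoin ℚ (Set.range (periods Λ)))) ∧
        (∀ j n n', (∀ i, i < j → n i = n' i) → T j n = T j n') ∧
        ∀ n : Choices r, (∀ j, ((H j n : ℝ) + 2) ^ ((δ + 2) ^ C) ≤ ‖ξ j n‖) →
          (∀ j, ∃ p : Polynomial ℤ, p ≠ 0 ∧ p.natDegree ≤ m ∧ (∀ l, |(p.coeff l : ℝ)| ≤ ‖ξ j n‖ ^ A) ∧
            Polynomial.aeval (ξ j n) p = 0) →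
          (∀ j, Function.Injective (n j)) → (∀ j i, 1 ≤ n j i ∧ n j i ≤ H j n ∧ n j i ∉ T j n) →
          ∀ u l : ∀ j, Fin (r j) → ℂ, IsTranslate Λ z s (fun j i => ξ j n + n j i) u l →
            FreeOverImage Λ δ w u l) ∧
    (∀ r q : ℕ, ∃ (L C : ℕ) (M : Set ℕ), M.Infinite ∧ ∀ N : Fin t → ℕ, (∀ j, N j ∈ M) → ∀ (w : Fin q → ℂ)
      (z s : Fin t → Fin r → ℂ), ∃ k : Fin t → ℕ,
        (∀ j (i : Fin r), N j < Nat.nth Nat.Prime (k j + i) ∧ Nat.nth Nat.Prime (k j + i) ≤ N j + L) ∧
        ∀ δ : ℕ, (∀ j, ((δ : ℝ) + 2) ^ C ≤ Real.log (N j)) → ∀ u l : Fin t → Fin r → ℂ,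
          IsTranslate Λ (r := fun _ => r) z s (fun j i => (Nat.nth Nat.Prime (k j + i) : ℂ)) u l →
          FreeOverImage Λ (r := fun _ => r) δ w u l) := by
  classical
  refine ⟨fun r q m A => ?_, fun r q => ?_⟩
  · obtain ⟨E, ⟨C, hC⟩, hE⟩ := Pool.Agent.Run7.h643.MT.winM Λ a b ha hb r q m A
    refine ⟨C, fun δ w z s H ξ hdep => ?_⟩
    obtain ⟨T, hT1, hT2, hT3⟩ := hE δ w z s H ξ hdep
    refine ⟨T, hT1, hT2, fun n hξ hht hinj hn u l hul => hT3 n (fun j => ?_) hht hinj hn u l hul⟩
    refine (pow_le_pow_right₀ ?_ (hC δ)).trans (hξ j)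
    have : (0 : ℝ) ≤ H j n := Nat.cast_nonneg _
    linarith
  rcases Nat.eq_zero_or_pos r with hr | hr
  · subst hr
    exact ⟨0, 1, Set.univ, Set.infinite_univ, fun N _ w z s => ⟨fun _ => 0, fun j i => i.elim0,
      fun δ _ u l _ => free_of_isEmpty Λ ⟨fun x => x.2.elim0⟩ δ w _ _⟩⟩
  obtain ⟨E, ⟨C, hC⟩, hE⟩ := Pool.Agent.Run7.h643.MT.winM Λ a b ha hb (fun _ => r) q 1 1
  obtain ⟨L, M, hM, hL⟩ := Pool.Agent.Run7.h643.MW.runsM r (q + 4 + r + (t * r) * 6 + t * (r * 3) + t * 5) C hr
  refine ⟨L, C + 1, M, hM, fun N hN w z s => ?_⟩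
  obtain ⟨k, hk, hfree⟩ := hL t N hN (fun δ n => (∀ j, 1 ≤ N j) → ∀ u l : Fin t → Fin r → ℂ,
      IsTranslate Λ (r := fun _ => r) z s (fun j i => (N j : ℂ) + n j i) u l →
      FreeOverImage Λ (r := fun _ => r) δ w u l)
    (fun δ δ' n hgood hle hN u l hul K hK hKd P hPd => hgood hN u l hul K hK (hKd.trans hle) P (hPd.trans hle))
    (fun δ hLN => by
      obtain ⟨T, hT1, hT2, hT3⟩ := hE δ w z s (fun _ _ => L) (fun j _ => (N j : ℂ)) (fun _ _ _ _ => ⟨rfl, rfl⟩)
      refine ⟨T, fun j n => ?_, hT2, fun n hinj hn hN1 u l hul => ?_⟩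
      · have h2 := Pool.Agent.Run7.h643.MW.trdeg_adj (Pool.Agent.Run7.h643.MX.perM Λ)
        have h3 : ((T j n).card : Cardinal) ≤
            ((q + 4 + r + (t * r) * 6 + t * (r * 3) + t * 5 : ℕ) : Cardinal) := by
          refine (hT1 j n).trans ?_
          have h4 : (∑ i ∈ Finset.Iio j, r * 3) ≤ t * (r * 3) := by
            rw [Finset.sum_const, smul_eq_mul]
            refine Nat.mul_le_mul_right _ ?_
            refine (Finset.card_le_univ _).trans ?_
            rw [Fintype.card_fin]
          have h6 : (∑ _i : Fin t, r) = t * r := by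
            rw [Finset.sum_const, smul_eq_mul, Finset.card_univ, Fintype.card_fin]
          have h5 : Fintype.card (Fin t × Fin 5) = t * 5 := by
            rw [Fintype.card_prod, Fintype.card_fin, Fintype.card_fin]
          rw [h5] at h2
          calc ((q + 4 + r + (∑ _i : Fin t, r) * 6 + ∑ i ∈ Finset.Iio j, r * 3 : ℕ) : Cardinal) + _
              ≤ ((q + 4 + r + (t * r) * 6 + t * (r * 3) : ℕ) : Cardinal) + ((t * 5 : ℕ) : Cardinal) := by
                rw [h6]
                gcongr
            _ = _ := by push_cast; ring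
        exact_mod_cast h3
      · refine hT3 n (fun j => ?_) (fun j => Pool.Agent.R351.GD.ht_nat (hN1 j)) hinj hn u l hul
        rw [Complex.norm_natCast]
        refine le_trans (pow_le_pow_right₀ ?_ (hC δ)) (hLN j)
        linarith [(Nat.cast_nonneg L : (0 : ℝ) ≤ L)])
  refine ⟨k, hk, fun δ hδ u l hul => ?_⟩
  rcases Nat.eq_zero_or_pos t with ht | ht
  · subst ht
    exact free_of_isEmpty Λ ⟨fun x => x.1.elim0⟩ δ w _ _
  refine hfree ht δ hδ (fun j => ?_) u l (fun j i => ?_)
  · have h1 := hδ j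
    by_contra h
    have h2 : N j = 0 := by omega
    rw [h2, Nat.cast_zero, Real.log_zero] at h1
    have h3 : (0 : ℝ) < ((δ : ℝ) + 2) ^ (C + 1) := by positivity
    linarith
  · have h10 := (hk j i).1
    have h11 : (N j : ℂ) + ((Nat.nth Nat.Prime (k j + i) - N j : ℕ) : ℂ) = Nat.nth Nat.Prime (k j + i) := by
      rw [Nat.cast_sub h10.le, add_sub_cancel]
    have h12 := hul j i
    exact ⟨h12.1, h12.2.1, h12.2.2.1.trans h11.symm, h12.2.2.2.trans h11.symm⟩

end Pool.Agent.Results.MP_4aec10_nt.SuccessiveTranslates
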